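import Pool.Agent.P8H3.RA.Main

/-!
MP_1dc56d_ag, Q1 and Q2: rationality and unirationality of the varieties with a rational map to a fibre
product `X` of cyclic covers of projective space along hyperplane arrangements,

  `X : w i ^ m i = ∏ j, ℓ i j (x) ^ e i j`, `i < r`, `x` in projective `n`-space.

Here `k` is any field of characteristic zero (for instance the field of algebraic numbers), the
hyperplanes of every family may be in any `t i`-subgeneral position (`t i = n`: general position), the
multiplicities `e i j ≥ 1` are arbitrary with a sum divisible by `m i`, and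
`p (2 t i + 1 - p) ∑ j, e i j < 2 m i (q i + p - 2 t i - 1)` for `p = 1, …, n`, where `q i` is the number of
the hyperplanes. For general position this means `n (n + 1) ∑ j, e i j < 2 m i (q i - n - 1)` (the case
`p = n` is the strongest one), for instance `q i = m i > (n + 1) (n + 2) / 2` and all `e i j = 1`.

Varieties are given by their function fields `K` and the homogeneous coordinates `(x, w)` of points
over `K`: a point over `K` is a rational map to `X`, a point `(x, w)` whose coordinates generate `K`
(`D.residue x w = ⊤`) is the generic point of a closed subvariety of `X` with function field `K`.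

Proof. Rational curves: the second main theorem over function fields for linearly degenerate maps
with the Wronskian and Nochka weights and with joint multiplicities of the hyperplanes of a family
(project NK of helper50, `Pool.Agent.P8H50.NK.S_AFI`; packages by helper16, helper45, helper52,
helper53, helper71), over the algebraic closure of the function field of the base of a family of
rational curves. Packages of this part were written by helper5 (DIM), helper22 (URU) and helper80
(DES, RKX, SUB).
-/

set_option autoImplicit false

namespace Pool.Agent.Results.MP_1dc56d_ag.ArrangementCovers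

open Pool.Agent.P8H3.RA
open Pool.Agent.W602.GT (coords)

/-- The varieties of dimension `d` with function field `K` are rational. -/
def Rational (k K : Type) [Field k] [Field K] [Algebra k K] (d : ℕ) : Prop :=
  Nonempty (K ≃ₐ[k] FractionRing (MvPolynomial (Fin d) k))

/-- The point `x` is in a linear subspace of dimension `d` (spanned by the `d + 1` points `B j`). The
closure of `x`, if of dimension `d`, is this linear subspace. -/
def Linear (k : Type) [Field k] {K : Type} [Field K] [Algebra k K] {n : ℕ} (d : ℕ)
    (x : Fin (n + 1) → K) : Prop :=
  ∃ (B : Fin (d + 1) → Fin (n + 1) → k) (f : Fin (d + 1) → K), LinearIndependent k B ∧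
    ∀ l, x l = ∑ j, algebraMap k K (B j l) * f j

/-- Let `k` be a field of characteristic zero and `X` the variety
`w i ^ m i = ∏ j, ℓ i j (x) ^ e i j` (`i < r`) over projective `n`-space, with the conditions `D.Good`.

(1) Families of rational curves. Let `F` be any field over `k` and `(x, w)` a point of `X` over
`F(s)`. Then all the `w i` are zero, or `x` is, up to a factor, a point over `F`.

(2) Let `Y` be any unirational variety, with function field `K`, and `Y ⇢ X` any rational map. Then
all the `w i` vanish on the image, or `x` is constant on it (and so the image is a point).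

(3) Let `Y` be of dimension `d`, generically finite over its image in `X`, and uniruled. Then all the
`w i` vanish on the image, and `d < c` if all the intersections of `r` hyperplanes, one of each family,
are of dimension at most `c - 1`. So no `Y` with `d ≥ c` is rational, unirational or uniruled.

(4) Let `V` be a closed subvariety of `X` of dimension `d ≥ 1`, `d ≥ c - 1`. The following are
equivalent: all the `w i` vanish on `V`; they vanish and `V` is a linear subspace of projective
`n`-space; `V` is rational; `V` is unirational; `V` is uniruled. -/
theorem result {k : Type} [Field k] [CharZero k] {n r : ℕ} (D : Arr k n r) (hD : D.Good) :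
    -- (1)
    (∀ (F : Type) [Field F] [Algebra k F] (x : Fin (n + 1) → RatFunc F) (w : Fin r → RatFunc F),
      D.Point x w → (∀ i, w i = 0) ∨
        ∃ (c : RatFunc F) (a : Fin (n + 1) → F), ∀ l, x l = c * RatFunc.C (a l)) ∧
    -- (2)
    (∀ (K : Type) [Field K] [Algebra k K] (x : Fin (n + 1) → K) (w : Fin r → K),
      D.Point x w → Unirational k K → (∀ i, w i = 0) ∨ Const k x) ∧
    -- (3)
    (∀ (K : Type) [Field K] [Algebra k K] (d c : ℕ) (x : Fin (n + 1) → K) (w : Fin r → K),
      D.Codim c → D.Point x w → Algebra.IsAlgebraic (coords k x) K → Algebra.trdeg k K = d →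
        Uniruled k K → (∀ i, w i = 0) ∧ d < c) ∧
    -- (4)
    (∀ (K : Type) [Field K] [Algebra k K] (d c : ℕ) (x : Fin (n + 1) → K) (w : Fin r → K),
      D.Codim c → D.Point x w → D.residue x w = ⊤ → Algebra.trdeg k K = d → 1 ≤ d → c ≤ d + 1 →
        [∀ i, w i = 0, (∀ i, w i = 0) ∧ Linear k d x, Rational k K d, Unirational k K,
          Uniruled k K].TFAE) := by
  refine ⟨fun F _ _ x w hP => ruled s_des s_rkx D hD F x w hP,
    fun K _ _ x w hP hU => unirat D hD hP hU, ?_, ?_⟩
  · intro K _ _ d c x w hc hP halg hd hU
    have hw := zero_of_ruled D hD hP halg hU
    obtain ⟨p, B, f, hp, -, hx⟩ := exists_lin D hD hP hw hc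
    have h1 := (s_dim k K n p d B f x hP.ne hx hd).1 halg
    exact ⟨hw, by omega⟩
  · intro K _ _ d c x w hc hP ht hd h1 hcd
    have hcoords : (∀ i, w i = 0) → coords k x = ⊤ := by
      intro hw
      rw [eq_top_iff, ← ht]
      unfold Arr.residue
      rw [IntermediateField.adjoin_le_iff]
      rintro z (⟨a, b, hb, rfl⟩ | ⟨i, b, hb, rfl⟩)
      · exact IntermediateField.subset_adjoin k _ ⟨a, b, hb, rfl⟩
      · rw [hw i, zero_div]
        exact zero_mem _
    tfae_have 1 → 2 := by
      intro hw
      obtain ⟨p, B, f, hp, hB, hx⟩ := exists_lin D hD hP hw hc
      obtain ⟨h2, -⟩ := (s_dim k K n p d B f x hP.ne hx hd).2 (hcoords hw) (by omega)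
      subst h2
      exact ⟨hw, B, f, hB, hx⟩
    tfae_have 2 → 3 := by
      rintro ⟨hw, B, f, hB, hx⟩
      exact ((s_dim k K n d d B f x hP.ne hx hd).2 (hcoords hw) le_rfl).2
    tfae_have 3 → 4 := by
      rintro ⟨φ⟩
      exact ⟨d, ⟨φ.toAlgHom⟩⟩
    tfae_have 4 → 5 := by
      intro hU
      rcases s_uru k K hU with h | h
      · exfalso
        have h2 : Algebra.IsAlgebraic k K := ⟨fun y => by
          obtain ⟨c, rfl⟩ := h y
          exact isAlgebraic_algebraMap c⟩
        have h3 : Algebra.trdeg k K = 0 := _root_.trdeg_eq_zero_iff.2 h2
        rw [h3] at hd
        have h4 : d = 0 := by exact_mod_cast hd.symm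
        omega
      · exact h
    tfae_have 5 → 1 := fun hU => zero_of_ruled D hD hP (alg_of_top D hD hP ht) hU
    tfae_finish

end Pool.Agent.Results.MP_1dc56d_ag.ArrangementCovers
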