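import Pool.Agent.P8H90.RG.Main

/-!
MP_1dc56d_ag, Q1 and Q2: rationality and unirationality of the varieties with a rational map to a fibre
product of cyclic covers of a product of projective lines.

The systems `S : Sys k n r`, the conditions `S.Good` and the notions `S.Point`, `S.Subvariety`,
`Sys.GenFinite` are those of helper50 (`Pool.Agent.P8H50.SG`): `X` is the projective variety
`w i ^ m i = ∏ j, ∏ l, (a i j l * x j + b i j l * y j) ^ e i j l`, `i < r`, over the product of `n`
projective lines with the coordinates `x j : y j`, the right hand sides being of degree
`m i * deg i j` in `x j, y j`. Varieties are given by their function fields `K` and the homogeneous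
coordinates `(x, y, w)` of their generic points.
-/

set_option autoImplicit false

open FF Pool.Agent.W602.GT Pool.Agent.P8H50.SG Pool.Agent.P8H90.RG
open Pool.Agent.TH710.WH (PurelyTranscendental)

namespace Pool.Agent.Results.MP_1dc56d_ag.RationalityOverGrids

/-- Let `k` be an algebraically closed field of characteristic zero (for instance the field of
algebraic numbers) and `X` the variety of the system
`w i ^ m i = ∏ j, ∏ l, (a i j l * x j + b i j l * y j) ^ e i j l` of `r` equations over the product of
`n` projective lines, where the linear forms are pairwise independent for each `j`, there are at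
least three of them for each `i`, and the sum over `j` of the quotients (degree in `x j, y j`) /
(number of branch points in the `j`-th line - 2) is less than `m i` for each `i`.

(1) Let `Y` be any variety, with function field `K`, and `Y ⇢ X` any rational map. If `Y` is rational,
or unirational, or dominated by a variety which is special (possibly after the removal of a closed
subset), then the map is constant, or all the `w i` vanish on its image.

(2) Let `Y` be of dimension `d ≥ 1` and the map generically finite onto its image. If not all `w i`
vanish on the image, then `Y` is of general type; this is the case if `n < r + d`. So none of the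
`Y` with `n < r + d` is rational or unirational.

(3) Let `V` be a closed subvariety of `X` of dimension `d ≥ 1`, and `d ≥ n - r`. The following are
equivalent: all `w i` vanish on `V`; `V` is a product of projective lines (`IsBox`); `V` is rational;
`V` is unirational; `V` is dominated by a special variety; `V` is special; `V` is not of general
type. -/
theorem result {k : Type} [Field k] [IsAlgClosed k] [CharZero k] {n r : ℕ} (S : Sys k n r)
    (hS : S.Good) :
    -- (1)
    (∀ (K : Type) [Field K] [Algebra k K] (x y : Fin n → K) (w : Fin r → K), S.Point x y w →
      (PurelyTranscendental k K ∨ UniratField k K ∨ SpecialDom k K) →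
        (∀ j, ∃ c c' : k, (c ≠ 0 ∨ c' ≠ 0) ∧ algebraMap k K c' * x j = algebraMap k K c * y j) ∨
          ∀ i, w i = 0) ∧
    -- (2)
    (∀ (K : Type) [Field K] [Algebra k K] (d : ℕ) (x y : Fin n → K) (w : Fin r → K),
      S.Point x y w → Sys.GenFinite k x y → Algebra.trdeg k K = d → 1 ≤ d →
        ((∃ i, w i ≠ 0) → GeneralType k K d) ∧ (n < r + d → (∃ i, w i ≠ 0) ∧
          ¬ (PurelyTranscendental k K ∨ UniratField k K ∨ SpecialDom k K))) ∧
    -- (3)
    (∀ (K : Type) [Field K] [Algebra k K] (d : ℕ) (x y : Fin n → K) (w : Fin r → K),
      S.Subvariety d x y w → 1 ≤ d → n ≤ r + d →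
        [∀ i, w i = 0, IsBox k x y w, PurelyTranscendental k K, UniratField k K, SpecialDom k K,
          Special k K d (fun _ => False), ¬ GeneralType k K d].TFAE) := by
  have hdom : ∀ (K : Type) [Field K] [Algebra k K],
      (PurelyTranscendental k K ∨ UniratField k K ∨ SpecialDom k K) → SpecialDom k K := by
    rintro K _ _ (h | h | h)
    · exact dom_of_pt h
    · exact dom_of_unirat h
    · exact h
  have h1 : ∀ (K : Type) [Field K] [Algebra k K] (x y : Fin n → K) (w : Fin r → K),
      S.Point x y w → (PurelyTranscendental k K ∨ UniratField k K ∨ SpecialDom k K) →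
      (∀ j, ¬ Transcendental k (x j / y j)) ∨ ∀ i, w i = 0 := by
    intro K _ _ x y w h hd
    by_cases hj : ∃ j, Transcendental k (x j / y j)
    · obtain ⟨j, hj⟩ := hj
      exact Or.inr (zero_of_dom S hS h (hdom K hd) hj)
    · exact Or.inl fun j h2 => hj ⟨j, h2⟩
  refine ⟨fun K _ _ x y w h hd => ?_, fun K _ _ d x y w h hg htr hd => ?_,
    fun K _ _ d x y w V hd hn => tfae S hS hd hn V⟩
  · rcases h1 K x y w h hd with h2 | h2
    · exact Or.inl fun j => const_of_not (h2 j)
    · exact Or.inr h2
  · have hgt : (∃ i, w i ≠ 0) → GeneralType k K d := fun ⟨i, hi⟩ =>
      S.general_over hS hd h hg htr hi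
    have hw : n < r + d → ∃ i, w i ≠ 0 := by
      intro hn
      by_contra hcon
      push Not at hcon
      have := dim_le S hS h hg htr hcon
      omega
    refine ⟨hgt, fun hn => ⟨hw hn, fun hR => ?_⟩⟩
    rcases h1 K x y w h hR with h2 | h2
    · have h3 := gen_trans S h hg htr hd
      obtain ⟨j, hj⟩ := h3
      exact h2 j hj
    · obtain ⟨i, hi⟩ := hw hn
      exact hi (h2 i)

end Pool.Agent.Results.MP_1dc56d_ag.RationalityOverGrids
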